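import Pool.Agent.Run7.h615.WL.Cor
import Pool.Agent.Run7.h615.WL.Weil

/-!
# MP_cd312e_ag: the monodromy-weight conjecture for varieties dominated by varieties whose
degenerations have simple strata
-/

set_option autoImplicit false

open Module

universe u v

namespace Pool.Agent.Results.MP_cd312e_ag.DominatedVarieties

open Pool.Agent.Y143 Run7.h615.WL

/-- **The `ℓ`-adic monodromy-weight conjecture, for all elements of the Weil group, for smooth proper
varieties `X` dominated by varieties whose degenerations have simple strata.** Let `X` be a smooth
proper variety over `K`, `V = H^m(X_{\bar K})` with the action `ρ` of the Weil group `W` of `K` and the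
monodromy operator `N` (`R : WeilRep`); `deg g = v(g) / h`, so that `g` acts on the residue field of
`\bar K` as the `deg g`-th power of the geometric Frobenius. Let `K'` be a finite extension of `K`, with
residue degree `f` and Weil group `W'`, and `X'` a smooth projective variety of dimension `n` over `K'`
with a surjective map to `X`, such that `X'` has a projective strictly semistable model over the ring of
integers (by de Jong's theorem there is always such an `X'`, with `n = dim X`). The cohomology of `X`
is a direct summand of the one of `X'` (`D : Domination`: the pull-back `i` and a multiple `r` of the
push-forward are compatible with `W'` and the monodromy operators, and `r i = 1`).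

`Y^(a+1)`, of dimension `n - a`, is the disjoint union of the intersections of `a + 1` different
components of the special fibre of the model of `X'`. Suppose that for all `a ≥ 0` and `w ≥ 2` with
`a + 1 + w ≤ min(m, 2 n - m)` (so `w < dim Y^(a+1)`, and `dim Y^(a+1) ≥ 3`) every character `χ`
(generalized eigenvalue of the Frobenius) is harmless, `HarmlessAt`: one of the following is true.

* The primitive part for `χ` of the term `E_1^(a+1, w)` of the weight spectral sequence has dimension at
  most one, or it is contained in the coboundaries or meets them in zero, or the primitive part
  for the dual character is contained in the coboundaries.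
* `w = 2` and the classes of character `χ` in `H^2(Y^(a+1))` are combinations of divisor classes.
* `w ≥ 3` and the classes of character `χ` in `H^w(Y^(a+1))` are in `L H^(w-2)(Y^(a+1))`.
* `w = 2 c + 2`, the classes of character `χ` in `H^w(Y^(a+1))` and all classes in `H^(2c)(Y^(a+2))` are
  algebraic, and the classes of cycles of codimension `c + 1` on `Y^(a+2)` satisfy the Hodge
  standard conjecture.

(In the last three cases up to classes with restriction zero to `Y^(a+2)` or, more generally, a
space `T` as in `GeneratedBy`.) Then for all `g` in the Weil group `W` and all `s`, the eigenvalues of
`g` on the graded piece `gr_s` of the monodromy filtration of `H^m(X_{\bar K})` are algebraic numbers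
whose complex conjugates have the absolute value `q ^ ((m + s) deg g / 2) = p ^ ((m + s) v(g) / 2)`.

For example this is so in all degrees `m` if for all strata `Y^(a+1)` of dimension `d ≥ 3`, `H^2` is
spanned by divisor classes and `H^w = L H^(w-2)` for `3 ≤ w < d`, up to classes with restriction zero to
`Y^(a+2)`; for example if these strata are complete intersections in projective spaces or blow-ups of
complete intersections along complete intersections of codimension two. There is no condition on the
middle cohomology of the strata, and on the strata of dimension one and two. -/
theorem result {Ω : Type u} [Field Ω] [CharZero Ω] [IsAlgClosed Ω] {Γ : Type} {n q f : ℕ}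
    (X' : Degeneration.{u, v} Ω Γ n (q ^ f)) (A : DivisorClasses X'.toSpecialFibre)
    (C : CycleClasses X'.toSpecialFibre) (m : ℕ)
    (h : ∀ (a w : ℕ) (χ : Γ → Ω), 2 ≤ w → a + 1 + w ≤ m → a + 1 + w + m ≤ 2 * n →
      HarmlessAt A C a w χ)
    {W : Type} [Group W] {deg : W →* Multiplicative ℤ} (R : WeilRep.{u, v} Ω deg q)
    (D : Domination R f (X'.actV m X'.frob) (X'.N m)) :
    R.IsPure m :=
  isPureRep_of_dominated R D (fun h0 => X'.q_ne (by
    rw [h0, zero_pow D.extension.pos.ne'])) (mw_of_harmless X' A C m h)

end Pool.Agent.Results.MP_cd312e_ag.DominatedVarieties
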