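import Pool.Agent.Run7.h307.WM2.Main
import Pool.Agent.Run7.h615.WL.Weil

/-!
# MP_cd312e_ag: the `ℓ`-adic monodromy-weight conjecture near a normal crossing fibre

Let `K` be a finite extension of `ℚ_p`, whose residue field has `q` elements, `B` a smooth variety over
`K`, `D = D_1 ∪ … ∪ D_r` a divisor with strict normal crossings on `B`, with `D_j` given by `u_j = 0`, and
`0 ∈ B(K)` a point of `D_1 ∩ … ∩ D_r`. Let `f : 𝒳 → B` be a projective family, smooth over `B - D`, with
unipotent local monodromy at `0` (for `r = 1` and `dim B = 1`, this is the case if the fibre over `0` is a
reduced divisor with strict normal crossings on the regular scheme `𝒳`). Nothing is assumed about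
models over the ring of integers of `K`: the degeneration takes place in characteristic zero.

Choose a curve `C → B` through `0`, `u_j = (unit) u ^ (a_j)`, `a_j ≥ 1`, such that the family over `C` has a
semistable model, and let `Y` be the degenerate fibre of this model. Suppose that the strata of
`Y` (the intersections of its components, smooth projective varieties over `K`) satisfy the
weight-monodromy conjecture; only the cohomology groups in the degrees `m` with `3 ≤ m ≤ 2 dim - 3`
matter, since the others are known to be mw pure. For fibres of dimension three this means the `H^3` of
the components of `Y`, and it is enough that these are uniruled threefolds for which `H^3` comes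
from curves, for example rationally connected (Bloch-Srinivas).

Then all fibres `X_t` (`t` a point of `B - D` with values in a finite extension `K(t)` of `K`, close to
`0`), and all smooth proper varieties over subfields `K'` of `K(t)` which are dominated by `X_t` over
`K(t)`, satisfy the conjecture of the problem, unless the vector `(v(u_1(t)), …, v(u_r(t)))` of
valuations lies in an exceptional set `S`. It is contained in an algebraic hypersurface and it contains only
finitely many points of each ray in the open cone `v_j > 0`. (For `r = 1` it is finite; so there are no
exceptions near `0`.)

Idea of the proof. On the limit cohomology `V` we have the monodromy operators `N_j` of the family and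
the arithmetic monodromy `N_K`; the monodromy of `X_t` is (up to a factor) `N_K + ∑ c_j N_j`, where `c_j` is
the valuation of `u_j(t)`. The graded pieces of the monodromy filtration of `∑ b_j N_j`, `b_j > 0`, are mw
pure with respect to `N_K`, since the `E_2` term of the weight spectral sequence of the family over
`C` (in characteristic zero!) is. So there are two commuting Lefschetz operators on the bigraded space,
whose sum is a Lefschetz operator. This shows that `(N_K + X ∑ b_j N_j)^a`, where `X` is a variable, is
injective from the part of weight `m + a` to the part of weight `m - a`; these parts have the same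
dimension, and so `(N_K + ∑ c_j N_j)^a` is bijective unless a certain nonzero polynomial (a
determinant) vanishes at `c`.
-/

set_option autoImplicit false

open Pool.Agent.Y143 Run7.h307.WM Run7.h307.WM2 Run7.h615.WL

namespace Pool.Agent.Results.MP_cd312e_ag.NearNormalCrossings

/-- **The `ℓ`-adic monodromy-weight conjecture near a normal crossing fibre.** Let `X` be a projective
family with `r` parameters over the `p`-adic field `K`, with a degenerate fibre `Y` over `0` (for a curve in
the base), such that for all `a` and all `m` with `3 ≤ m ≤ 2 dim Y^(a+1) - 3` the cohomology `H^m(Y^(a+1))`
is mw pure of weight `m`, or a direct factor of a twist of a mw pure representation (`h`).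

Then there is a set `S` of exceptional vectors of valuations, contained in the zero set of a nonzero
polynomial, and with finitely many points on each ray of the open cone, such that for all `t` with
`v(u(t)) ∉ S` the following holds in all degrees `m`. Let `X'` be a smooth proper variety over a field
`K'`, with residue field with `q'` elements, `V = H^m(X'_{\bar K})` with the action `ρ` of the Weil group
`W` of `K'` and the monodromy operator `N` (`R : WeilRep`), such that `K(t)` is a finite extension of
`K'`, of residue degree `f` (so `q' ^ f = q ^ deg t`), and `X_t` has a surjective map to `X'` over `K(t)`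
(`D : Domination`: the pull-back and a multiple of the push-forward; for example `X' = X_t`). Then for all
`g ∈ W` and all `s`, the eigenvalues of `g` on the graded piece `gr_s` of the monodromy filtration of
`V` are algebraic numbers all of whose complex conjugates have the absolute value
`q' ^ ((m + s) deg g / 2)` (`R.IsPure m`). -/
theorem result {Ω : Type} [Field Ω] [CharZero Ω] [IsAlgClosed Ω] {n q r : ℕ} (hq : 1 < q)
    (X : PolyFamily Ω n q r) (h : X.StrataPure) :
    ∃ S : Set (Fin r → ℚ),
      (∃ P : MvPolynomial (Fin r) ℚ, P ≠ 0 ∧ ∀ c ∈ S, MvPolynomial.eval c P = 0) ∧
      (∀ b : Fin r → ℕ, (∀ j, 0 < b j) → {s : ℚ | (fun j => s * b j) ∈ S}.Finite) ∧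
      ∀ t : X.fibres.Point, X.fibres.valuation t ∉ S → ∀ (m : ℕ) (W : Type) (_ : Group W)
        (deg : W →* Multiplicative ℤ) (q' f : ℕ) (R : WeilRep.{0, 0} Ω deg q')
        (_ : Domination R f (X.fibres.frob t m) (X.fibres.mon t m)),
        q' ^ f = q ^ X.fibres.deg t → R.IsPure m := by
  obtain ⟨S, hP, hray, hS⟩ := main hq X h
  refine ⟨S, hP, hray, fun t ht m W _ deg q' f R D hf => ?_⟩
  have h1 := hS t ht m
  rw [← hf] at h1
  refine isPureRep_of_dominated R D (fun h0 => ?_) h1
  have h2 : 0 < q ^ X.fibres.deg t := pow_pos (by omega) _
  rw [← hf, h0, zero_pow D.extension.pos.ne'] at h2
  exact lt_irrefl _ h2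

end Pool.Agent.Results.MP_cd312e_ag.NearNormalCrossings
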