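import Pool.Agent.Run7.h615.WS.Low
import Pool.Agent.Run7.h615.WL.Weil

/-!
# MP_cd312e_ag: the monodromy-weight conjecture for varieties dominated by varieties whose reduction
has fibred components and simple Frobenius spectrum
-/

set_option autoImplicit false

open Module

universe u v

namespace Pool.Agent.Results.MP_cd312e_ag.SimpleSpectrum

open Pool.Agent.Y143 Pool.Agent.X302.MW Run7.h615.WL Run7.h615.WS

/-- **The `ℓ`-adic monodromy-weight conjecture, for all elements of the Weil group, for smooth proper
varieties `X` dominated by a variety whose reduction has fibred components and simple Frobenius
spectrum.** Let `X` be a smooth proper variety over `K`, `V = H^m(X_{\bar K})` with the action `ρ`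
of the Weil group `W` of `K` and the monodromy operator `N` (`R : WeilRep`); `deg g = v(g) / h`, so
that `g` acts on the residue field of `\bar K` as the `deg g`-th power of the geometric Frobenius.
Let `K'` be a finite extension of `K`, with residue degree `f` and Weil group `W'`, and `X'` a
smooth projective variety of dimension `n` over `K'` with a map to `X`, such that `X'` has a
projective strictly semistable model over the ring of integers. The map is surjective, or `m ≤ n`,
`X` is projective and the map dominates a linear section of `X` of dimension `n`. By de Jong's
theorem (and the Lefschetz theorems) there is such an `X'`, and the cohomology of `X` is a direct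
summand of the one of `X'` (`D : Domination`: the pull-back `i` and a map `r` given by the
push-forward are compatible with `W'` and the monodromy operators, and `r i = 1`).

`Y^(a+1)`, of dimension `n - a`, is the disjoint union of the intersections of `a + 1` different
components of the special fibre of the model of `X'`; let `Y_i` (`i : I`) be the components of
`Y^(a+1)` and `D_j` (`j : J`) the components of `Y^(a+2)`, defined over the residue field. Suppose
that for all `a ≥ 0` and `w ≥ 2` with `a + 1 + w ≤ min(m, 2 n - m)` (for a threefold this is `a =
0`, `w = 2` only) the following condition (`FibredAt`) is true. The cohomology `H^w(Y^(a+1))` is
generated by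

* the classes of divisors, if `w = 2`, and the multiples of the class `L` of an ample divisor, if
  `w ≥ 3`;
* classes with restriction zero to `Y^(a+2)`;
* for each `i`, a space `T i` of classes on `Y_i` which comes from a smooth projective variety
  `S_i` of dimension `w`, the base of a fibration of `Y_i` (or of a covering of `Y_i`): the
  restriction from `T i` to `D_j` multiplies the intersection form `form i` of `S_i` by the degree
  `deg i j ≥ 0` of `D_j ∩ L^(d-1-w)` over `S_i` (`d = n - a`), and it is zero if this degree is
  zero.

Moreover, for each link, that is a `D_j` which is mapped onto `S_i` for at least two of the `Y_i`
which contain it, the Frobenius has simple spectrum on the transcendental part of `H^w(D_j)`: the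
generalized eigenspaces in the classes orthogonal to the classes of divisors (for `w = 2`), or to
the multiples of `L` (for `w ≥ 3`), have dimension at most one; this is only necessary for the
eigenvalues `α` which occur on `T i` for two of these `i`.

Then for all `g` in the Weil group `W` and all `s`, the eigenvalues of `g` on the graded piece
`gr_s` of the monodromy filtration of `H^m(X_{\bar K})` are algebraic numbers whose complex
conjugates have the absolute value `q ^ ((m + s) deg g / 2) = p ^ ((m + s) v(g) / 2)`.

For threefolds the condition is satisfied if all components `Y_i` of the special fibre are
uniruled, or have no transcendental cycles, and the Frobenius on the transcendental part of the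
second cohomology of the double surfaces has no multiple eigenvalue: if `P → Y_i` is a dominant map
of degree `e` and `P` has a fibration over a surface `S` whose general fibre is a rational curve,
with image `C` in `Y_i`, then `H^2(Y_i)` is the direct sum of the classes of divisors and the space
`T i` of the classes `x` whose pull-back to `P` is the pull-back of a class `x_S` on `S` which is
orthogonal to the classes of curves, `form i x y = (x_S . y_S) / e` and `deg i j = D_j . C`. There
is no condition on the dual complex, on the geometric genus of the double surfaces or on `H^3`, and
the Tate conjecture is not assumed. In dimension `n ≥ 4` an example is a chain or a cycle of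
projective line bundles over smooth complete intersections `S_i` of dimension `n - 1`, glued along
sections, such that the Frobenius has simple spectrum on the primitive cohomology of the `S_i`, if
all strata of dimension at least three are complete intersections, or blow-ups of complete
intersections along complete intersections of codimension two.

The fields of the structures are known facts: `Degeneration` is the cohomology of the strata and of
the generic fibre of `X'` with the weight spectral sequence and the hard Lefschetz theorem;
`DivisorClasses` has the Hodge index theorem and Weil's positivity; the composites of the
restrictions `T i → H^w(D_j)` and their transposes `H^w(D_j) → T i'` are given by algebraic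
correspondences, so together with powers of the Frobenius they have rational traces
(`HasRationalTraces`). -/
theorem result {Ω : Type u} [Field Ω] [CharZero Ω] [IsAlgClosed Ω] {Γ : Type} {n q f : ℕ}
    (X' : Degeneration.{u, v} Ω Γ n (q ^ f)) (A : DivisorClasses X'.toSpecialFibre) (m : ℕ)
    (h : ∀ a w : ℕ, 2 ≤ w → a + 1 + w ≤ m → a + 1 + w + m ≤ 2 * n → FibredAt A a w)
    {W : Type} [Group W] {deg : W →* Multiplicative ℤ} (R : WeilRep.{u, v} Ω deg q)
    (D : Domination R f (X'.actV m X'.frob) (X'.N m)) :
    R.IsPure m :=
  isPureRep_of_dominated R D (fun h0 => X'.q_ne (by
    rw [h0, zero_pow D.extension.pos.ne'])) (mw_of_fibred X' A m h)

end Pool.Agent.Results.MP_cd312e_ag.SimpleSpectrum
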