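import Pool.Agent.Run7.h615.WM.Final
import Pool.Agent.Run7.h615.WL.Weil

/-!
# MP_cd312e_ag: the monodromy-weight conjecture for varieties dominated by threefolds with uniruled
reduction
-/

set_option autoImplicit false

open Module

universe u v

namespace Pool.Agent.Results.MP_cd312e_ag.UniruledReduction

open Pool.Agent.Y143 Pool.Agent.X302.MW Run7.h615.WL Run7.h615.WM
open scoped NNReal

/-- **The `ℓ`-adic monodromy-weight conjecture, for all elements of the Weil group, for smooth proper
varieties `X` dominated by threefolds with uniruled reduction whose links form a forest.** Let `X` be a
smooth proper variety over `K`, `V = H^m(X_{\bar K})` with the action `ρ` of the Weil group `W` of `K`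
and the monodromy operator `N` (`R : WeilRep`); `deg g = v(g) / h`, so that `g` acts on the residue
field of `\bar K` as the `deg g`-th power of the geometric Frobenius. Let `K'` be a finite extension of
`K`, with residue degree `f` and Weil group `W'`, and `X'` a smooth projective threefold over `K'` with
a map to `X`, such that `X'` has a projective strictly semistable model over the ring of integers. The
map is surjective, or `m ≤ 3`, `X` is projective and the map dominates a linear section of `X` of
dimension three. By de Jong's theorem (and the Lefschetz theorems) there is such an `X'` for all `X`
of dimension at most three, and for all projective `X` if `m ≤ 3`, and the cohomology of `X` is a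
direct summand of the one of `X'` (`D : Domination`: the pull-back `i` and a map `r` given by the
push-forward are compatible with `W'` and the monodromy operators, and `r i = 1`).

Let `Y_i` (`i : I`) be the components of the special fibre of the model of `X'` and `D_j` (`j : J`) the
double surfaces. Suppose that

(1) the `Y_i` satisfy the Tate conjecture for divisors (`hT`);

(2) on the non-Tate part of `H^2(Y_i)` (the Frobenius eigenvalues which are not of the form `q' ζ`,
`q' = q ^ f`, with a root of unity `ζ`), the forms `x|D_j . y|D_j` given by the double surfaces `D_j` in
`Y_i` are multiples `deg i j * form i x y`, with `deg i j` a natural number, of one nondegenerate form,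
and the restriction to `D_j` is zero if `deg i j = 0` (`F`);

(3) for each non-Tate `α`, the graph whose vertices are the components and whose edges are the links
(the `D_j` with `deg i j ≠ 0` and `α` an eigenvalue on `H^2(Y_i)`, for both components `Y_i` which
contain `D_j`) is a forest, with an orientation such that for each link `D_j` the geometric genus of
`D_j` is at most one or `α` has the same multiplicity in `H^2(D_j)` and in `H^2` of the component
above `D_j` (`hF`).

Then for all `g` in the Weil group `W` and all `s`, the eigenvalues of `g` on the graded piece `gr_s` of
the monodromy filtration of `H^m(X_{\bar K})` are algebraic numbers whose complex conjugates have the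
absolute value `q ^ ((m + s) deg g / 2) = p ^ ((m + s) v(g) / 2)`.

Condition (2) is satisfied if each `Y_i` has one of the following properties: `H^2(Y_i)` has no
non-Tate part; `Y_i` is uniruled (`deg i j` is the intersection number of `D_j` with the general
rational curve `C` of a covering family, parametrized by a surface `S`, and `(L . C) * form i x y =
x . y . L` for an ample `L`; this is because non-Tate classes on `Y_i` come from classes on `S`); the
Picard number of `Y_i` is one; `Y_i` is fibred over a curve in K3 surfaces and the `D_j` in `Y_i` are
fibres or have no non-Tate classes. For example, all conditions are satisfied if `X'` is a Calabi-Yau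
threefold with a degeneration of type II, with special fibre a chain of components, the interior ones
uniruled and the outer ones without non-Tate classes, which meet in K3 surfaces (the Tate conjecture
is known in this case).

The other hypotheses are known. `hI`: the Frobenius eigenvalues on the strata are algebraic integers.
`hR`: the characteristic polynomials of the Frobenius on `H^2(Y_i)` and `H^2(D_j)` are rational. `hS`:
for a `p`-adic valuation `w`, Manin's integrality of the Newton polygons of the Frobenius on
`H^2(Y_i)` and on `H^2(D_j)`, and the Newton polygon of `H^2(D_j)` lies above the Hodge polygon; `pg j`
is the geometric genus of `D_j`. -/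
theorem result {Ω : Type u} [Field Ω] [CharZero Ω] [IsAlgClosed Ω] {Γ : Type} {q f : ℕ}
    (hq : IsPrimePow q) (X' : Degeneration.{u, v} Ω Γ 3 (q ^ f))
    (A : DivisorClasses X'.toSpecialFibre) (hI : HasIntegralFrobenius X'.toSpecialFibre)
    (hT : A.TateConj 0) {I J : Type} [Fintype I] [Fintype J]
    (C : Components X'.toSpecialFibre I J) (hR : C.IsRational) (w : Valuation Ω ℝ≥0) (pg : J → ℕ)
    (hS : HasSlopes C w pg) (F : ProportionalForms C)
    (hF : ∀ α : Ω, ¬ IsTateNumber (q ^ f) α → F.IsForest pg α) (m : ℕ)
    {W : Type} [Group W] {deg : W →* Multiplicative ℤ} (R : WeilRep.{u, v} Ω deg q)
    (D : Domination R f (X'.actV m X'.frob) (X'.N m)) :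
    R.IsPure m :=
  isPureRep_of_dominated R D (fun h0 => X'.q_ne (by
    rw [h0, zero_pow D.extension.pos.ne']))
    (mw_forest rfl (hq.pow D.extension.pos.ne') X' A hI hT C hR F w pg hS hF m)

end Pool.Agent.Results.MP_cd312e_ag.UniruledReduction
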